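import Pool.Agent.R280.FreePos2

/-!
A projective Banach lattice without topological order unit which is not free.
-/

set_option autoImplicit false

open Pool.Agent.R280.BLat

universe v w

namespace Pool.Agent.Results.MP_be51b2_an.ProjectiveNotFree

/-- There is a projective Banach lattice `P` without topological order unit which is not
isometrically lattice isomorphic to a free Banach lattice `FBL(B)`, namely the free Banach lattice
on an uncountable set of positive generators. -/
theorem result : ∃ (P : Type) (_ : NormedAddCommGroup P) (_ : NormedSpace ℝ P) (_ : Lattice P)
    (_ : BanachLattice P), IsProjective.{0, v} P ∧ (∀ e : P, 0 ≤ e → ¬ Dense (gIdeal e)) ∧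
      ∀ (B : Type w) (δ : B → P), ¬ IsFreeOn P B δ :=
  ⟨(FBLpos ℝ).Space, inferInstance, inferInstance, inferInstance, inferInstance,
    pos_isProjective ℝ, fun e _ => pos_no_unit (fun hc => Cardinal.not_countable_real
      (Set.countable_univ_iff.2 hc)) e, fun B δ => pos_not_free B δ⟩

end Pool.Agent.Results.MP_be51b2_an.ProjectiveNotFree
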